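import Pool.Agent.H8.MC.FTargets

/-!
# Spectra over classes of graphs, first-order logic, row CRZ: consequences of connectedness
-/

set_option autoImplicit false

namespace Pool.Agent.H1.MF

open Pool.Agent.H8.MC Pool.Agent.H69.VR Pool.Agent.H8.VR Pool.Agent.H69.Sp
open Pool.Agent.H8.PL (GridF Z_GR)

theorem pf_CRZ (hGR : Z_GR) : T_CRZ := by
  intro Q U Hh Vv V _ G co rp lb ti h
  obtain ⟨o, ho, hol, hob⟩ := h.cor
  have hE : ∀ x y, Ec G co rp x y → rp x ∧ rp y ∧ ¬ (lb x).r = true ∧ ¬ (lb y).l = true ∧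
      ((lb x).b = true ↔ (lb y).b = true) ∧ ((lb x).t = true ↔ (lb y).t = true) := by
    intro x y hxy
    obtain ⟨h1, h2, h3, h4⟩ := h.eE x y hxy
    refine ⟨hxy.1, hxy.2.1, ?_, ?_, ?_, ?_⟩
    · rw [h1]; exact Bool.false_ne_true
    · rw [h2]; exact Bool.false_ne_true
    · rw [h3]
    · rw [h4]
  have hN : ∀ x y, Nc G co rp x y → rp x ∧ rp y ∧ ¬ (lb x).t = true ∧ ¬ (lb y).b = true ∧
      ((lb x).l = true ↔ (lb y).l = true) ∧ ((lb x).r = true ↔ (lb y).r = true) := by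
    intro x y hxy
    obtain ⟨h1, h2, h3, h4⟩ := h.eN x y hxy
    refine ⟨hxy.1, hxy.2.1, ?_, ?_, ?_, ?_⟩
    · rw [h1]; exact Bool.false_ne_true
    · rw [h2]; exact Bool.false_ne_true
    · rw [h3]
    · rw [h4]
  obtain ⟨W, H, g, hW, hH, -, gE, gN, gM, gI⟩ := hGR V rp (Ec G co rp) (Nc G co rp)
    (fun x => (lb x).l = true) (fun x => (lb x).r = true) (fun x => (lb x).b = true)
    (fun x => (lb x).t = true) o hE hN h.fE h.iE h.fN h.iN
    (fun x hx hr => h.xE x hx (Bool.not_eq_true _ ▸ hr))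
    (fun x hx ht => h.xN x hx (Bool.not_eq_true _ ▸ ht)) ho hol hob h.sq
  have hall : ∀ x, rp x → x ∈ {v | ∃ i < W, ∃ j < H, g i j = v} := by
    refine h.con {v | ∃ i < W, ∃ j < H, g i j = v}
      ⟨g 0 0, ⟨0, hW, 0, hH, rfl⟩, (gM 0 hW 0 hH).1⟩ ?_
    rintro x y (hxy | hxy)
    · constructor
      · rintro ⟨i, hi, j, hj, rfl⟩
        have h1 : i + 1 < W := by
          have h2 := (gM i hi j hj).2.2.1
          have h3 : ¬ i + 1 = W := fun h4 => (hE _ _ hxy).2.2.1 (h2.2 h4)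
          omega
        exact ⟨i + 1, h1, j, hj, h.fE _ _ _ (gE i j h1 hj) hxy⟩
      · rintro ⟨i, hi, j, hj, rfl⟩
        have h1 : i ≠ 0 := fun h4 => (hE _ _ hxy).2.2.2.1 ((gM i hi j hj).2.1.2 h4)
        obtain ⟨k, rfl⟩ := Nat.exists_eq_succ_of_ne_zero h1
        exact ⟨k, by omega, j, hj, h.iE _ _ _ (gE k j hi hj) hxy⟩
    · constructor
      · rintro ⟨i, hi, j, hj, rfl⟩
        have h1 : j + 1 < H := by
          have h2 := (gM i hi j hj).2.2.2.2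
          have h3 : ¬ j + 1 = H := fun h4 => (hN _ _ hxy).2.2.1 (h2.2 h4)
          omega
        exact ⟨i, hi, j + 1, h1, h.fN _ _ _ (gN i j hi h1) hxy⟩
      · rintro ⟨i, hi, j, hj, rfl⟩
        have h1 : j ≠ 0 := fun h4 => (hN _ _ hxy).2.2.2.1 ((gM i hi j hj).2.2.2.1.2 h4)
        obtain ⟨k, rfl⟩ := Nat.exists_eq_succ_of_ne_zero h1
        exact ⟨i, hi, k, by omega, h.iN _ _ _ (gN i k hi hj) hxy⟩
  refine ⟨?_, ?_, ?_⟩
  · intro y hy hl
    obtain ⟨i, hi, j, hj, rfl⟩ := hall y hy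
    have h1 : i ≠ 0 := fun h4 => by
      have h5 := (gM i hi j hj).2.1.2 h4
      rw [hl] at h5
      exact Bool.false_ne_true h5
    obtain ⟨k, rfl⟩ := Nat.exists_eq_succ_of_ne_zero h1
    exact ⟨g k j, gE k j hi hj⟩
  · intro y hy hb
    obtain ⟨i, hi, j, hj, rfl⟩ := hall y hy
    have h1 : j ≠ 0 := fun h4 => by
      have h5 := (gM i hi j hj).2.2.2.1.2 h4
      rw [hb] at h5
      exact Bool.false_ne_true h5
    obtain ⟨k, rfl⟩ := Nat.exists_eq_succ_of_ne_zero h1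
    exact ⟨g i k, gN i k hi hj⟩
  · intro x y hx hy hxl hxb hyl hyb
    obtain ⟨i, hi, j, hj, rfl⟩ := hall x hx
    obtain ⟨i', hi', j', hj', rfl⟩ := hall y hy
    have h1 : i = 0 := (gM i hi j hj).2.1.1 hxl
    have h2 : j = 0 := (gM i hi j hj).2.2.2.1.1 hxb
    have h3 : i' = 0 := (gM i' hi' j' hj').2.1.1 hyl
    have h4 : j' = 0 := (gM i' hi' j' hj').2.2.2.1.1 hyb
    rw [h1, h2, h3, h4]

end Pool.Agent.H1.MF
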