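import Pool.Agent.H8.MC.GTargets

/-!
# Spectra over classes of graphs, first-order logic, row GRY: grids are models of grids
-/

set_option autoImplicit false

namespace Pool.Agent.H1.MF

open Pool.Agent.H8.MC Pool.Agent.H69.VR Pool.Agent.H8.VR Pool.Agent.H69.Sp

theorem pf_GRY : T_GRY := by
  intro C hC m hm
  have e : Fin (1 * m ^ 2) ≃ Fin m × Fin m :=
    (finCongr (by rw [one_mul, pow_two])).trans finProdFinEquiv.symm
  have hset : ∀ p, {v | (some (e v) : Option (Fin m × Fin m)) = some p} = {e.symm p} := by
    intro p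
    ext v
    simp only [Set.mem_ofPred_eq, Option.some.injEq, Set.mem_singleton_iff]
    exact (Equiv.eq_symm_apply e).symm
  refine ⟨(grid m).comap e, fun v => e v, ?_, ?_, ?_⟩
  · exact hC m (1 * m ^ 2) _ ⟨⟨e, by intro a b; rfl⟩⟩
  · refine ⟨?_, ?_, ?_⟩
    · intro p
      have : Subsingleton {v | (some (e v) : Option (Fin m × Fin m)) = some p} := by
        rw [hset p]; infer_instance
      have hne : Nonempty {v | (some (e v) : Option (Fin m × Fin m)) = some p} :=
        ⟨⟨e.symm p, by simp⟩⟩
      exact ⟨fun a b => by rw [@Subsingleton.elim _ this a b]⟩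
    · intro u v huv
      exact ⟨e u, e v, rfl, rfl, Or.inr huv⟩
    · intro p q hpq
      refine ⟨e.symm p, e.symm q, by simp, by simp, ?_⟩
      show (grid m).Adj (e (e.symm p)) (e (e.symm q))
      rw [Equiv.apply_symm_apply, Equiv.apply_symm_apply]
      exact hpq
  · intro p
    have h : {v | e v = p} = {e.symm p} := by
      ext v
      simp only [Set.mem_ofPred_eq, Set.mem_singleton_iff]
      exact (Equiv.eq_symm_apply e).symm
    show ({v | e v = p}).ncard = 1
    rw [h, Set.ncard_singleton]

end Pool.Agent.H1.MF
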